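import Pool.Agent.Lib.helper21.ASE2

set_option maxHeartbeats 400000

open Set Filter Topology

namespace Pool.Agent.Results.MP_78fc4b_an.Counter

universe v

/-- absolutely strongly exposing operators -/
def ASE {X : Type} {Z : Type v} [NormedAddCommGroup X] [NormedSpace ℝ X]
    [NormedAddCommGroup Z] [NormedSpace ℝ Z] (T : X →L[ℝ] Z) : Prop :=
  ∃ x₀ : X, ‖x₀‖ = 1 ∧ ∀ x : ℕ → X, (∀ n, ‖x n‖ ≤ 1) →
    Tendsto (fun n => ‖T (x n)‖) atTop (𝓝 ‖T‖) →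
    ∃ σ : ℕ → ℕ, StrictMono σ ∧ ∃ l : ℝ, ‖l‖ = 1 ∧
      Tendsto (fun n => x (σ n)) atTop (𝓝 (l • x₀))

/-- the pair (X, Z) has the BPBp-ASE -/
def BPBpASE (X : Type) (Z : Type v) [NormedAddCommGroup X] [NormedSpace ℝ X]
    [NormedAddCommGroup Z] [NormedSpace ℝ Z] : Prop :=
  ∀ ε : ℝ, 0 < ε → ∃ η : ℝ, 0 < η ∧ η < ε ∧ ∀ (T : X →L[ℝ] Z) (x : X), ‖T‖ = 1 → ‖x‖ = 1 →
    1 - η < ‖T x‖ → ∃ (S : X →L[ℝ] Z) (x₀ : X), ASE S ∧ ‖x₀‖ = 1 ∧ ‖S‖ = 1 ∧ ‖S x₀‖ = 1 ∧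
      ‖S - T‖ < ε ∧ ‖x - x₀‖ < ε

/-- uniform convexity -/
def UnifConvex (X : Type) [NormedAddCommGroup X] : Prop :=
  ∀ ε : ℝ, 0 < ε → ∃ δ : ℝ, 0 < δ ∧ δ < 1 ∧ ∀ x₁ x₂ : X, ‖x₁‖ = 1 → ‖x₂‖ = 1 →
    1 - δ < ‖x₁ + x₂‖ / 2 → ‖x₁ - x₂‖ < ε

open Pool.Agent.Lib.Helper21

lemma nrm_eq {s : ℝ} (hs : s ^ 2 ≤ 1) : ‖ASE2.mk (s, 0, 1)‖ = 1 := by
  refine le_antisymm (ASE2.le_one.2 ⟨?_, ?_⟩) (le_of_forall_lt_imp_le_of_dense fun r hr => ?_)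
  · change s ^ 2 + 0 ^ 2 + 1 ^ 2 ≤ 2
    linarith
  · change (0:ℝ) ^ 4 ≤ (3 - s ^ 2) * (1 - 0 ^ 2 - 1 ^ 2)
    norm_num
  · rcases le_or_gt r 0 with h | h
    · exact h.trans (norm_nonneg _)
    have h1 := ASE2.big (x := r⁻¹ • ASE2.mk (s, 0, 1)) fun hB => by
      have h2 : (0:ℝ) ≤ 1 - (r⁻¹ * 0) ^ 2 - (r⁻¹ * 1) ^ 2 := ASE2.BC hB
      have h3 : 1 < r⁻¹ := one_lt_inv_iff₀.2 ⟨h, hr⟩
      nlinarith
    rw [norm_smul, Real.norm_of_nonneg (by positivity), le_inv_mul_iff₀ h] at h1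
    linarith

theorem result :
    ∃ (X : Type) (_ : NormedAddCommGroup X) (_ : NormedSpace ℝ X) (_ : CompleteSpace X),
      ¬ UnifConvex X ∧ ∀ (Z : Type v) [NormedAddCommGroup Z] [NormedSpace ℝ Z] [CompleteSpace Z],
        BPBpASE X Z := by
  refine ⟨ASE2.X, inferInstance, inferInstance, inferInstance, fun h => ?_,
    fun Z _ _ _ => ASE1.main ASE2.H1 ASE2.H2⟩
  obtain ⟨δ, d0, -, d1⟩ := h 1 one_pos
  have h1 : ASE2.mk (1, 0, 1) + ASE2.mk (-1, 0, 1) = (2:ℝ) • ASE2.mk (0, 0, 1) := by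
    have : ((1, 0, 1) : ASE2.E) + (-1, 0, 1) = (2:ℝ) • ((0, 0, 1) : ASE2.E) := by
      ext <;> norm_num
    exact this
  have h2 := d1 _ _ (nrm_eq (s := 1) (by norm_num)) (nrm_eq (s := -1) (by norm_num)) (by
    rw [h1, norm_smul, nrm_eq (by norm_num)]; norm_num; exact d0)
  have h3 := ASE2.big (x := ASE2.mk (1, 0, 1) - ASE2.mk (-1, 0, 1)) fun hB => by
    have : ((1:ℝ) - -1) ^ 2 + (0 - 0) ^ 2 + (1 - 1) ^ 2 ≤ 2 := hB.1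
    norm_num at this
  linarith

end Pool.Agent.Results.MP_78fc4b_an.Counter
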